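import Mathlib

set_option autoImplicit false
set_option maxHeartbeats 400000

open Filter Topology Real Matrix Finset Asymptotics

namespace Pool.Agent.Results.MP_653f52_an.LogGrowth

/-- real 2 by 2 matrices -/
abbrev Mat : Type := Matrix (Fin 2) (Fin 2) ℝ

/-- the product of the first `k` matrices, later factors on the left -/
def prod (A : ℕ → Mat) : ℕ → Mat
  | 0 => 1
  | k + 1 => A k * prod A k

/-- largest absolute value of an entry -/
noncomputable def nrm (X : Mat) : ℝ := ‖(fun i j => X i j : Fin 2 → Fin 2 → ℝ)‖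

/-- the largest norm of a product of length `k` -/
noncomputable def top (S : Set Mat) (k : ℕ) : ℝ :=
  sSup {t | ∃ A : ℕ → Mat, (∀ j, A j ∈ S) ∧ t = nrm (prod A k)}

/-- trajectories of the discrete time system -/
def Traj (S : Set Mat) (x : ℕ → Fin 2 → ℝ) : Prop :=
  ∃ A : ℕ → Mat, (∀ j, A j ∈ S) ∧ ∀ k, x (k + 1) = A k *ᵥ x k

noncomputable def M (e : ℝ) : Mat := exp (-e) • !![1, negMulLog e; 0, 1]

theorem pr (e : ℕ → ℝ) (k : ℕ) : prod (fun j => M (e j)) k =
    exp (-∑ j ∈ range k, e j) • !![1, ∑ j ∈ range k, negMulLog (e j); 0, 1] := by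
  induction k with
  | zero => simp [prod, one_fin_two]
  | succ k ih =>
    rw [prod, ih, M, smul_mul_smul_comm, ← exp_add, sum_range_succ, sum_range_succ]
    congr 1
    · congr 1; ring
    · simp

theorem bd (A : ℕ → Mat) (hA : ∀ j, A j ∈ M '' Set.Icc 0 1) (k : ℕ) (i j : Fin 2) :
    |prod A k i j| ≤ log k + 1 := by
  choose e he h using hA
  obtain rfl : A = fun j => M (e j) := funext fun j => (h j).symm
  have l0 : 0 ≤ log k := log_natCast_nonneg k
  have S0 : 0 ≤ ∑ j ∈ range k, e j := sum_nonneg fun j _ => (he j).1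
  have F0 : 0 ≤ ∑ j ∈ range k, negMulLog (e j) :=
    sum_nonneg fun j _ => negMulLog_nonneg (he j).1 (he j).2
  have F1 : ∑ j ∈ range k, negMulLog (e j) ≤ (∑ j ∈ range k, e j) * log k + 1 := by
    rcases Nat.eq_zero_or_pos k with rfl | hk
    · simp
    have k0 : (0 : ℝ) < k := by exact_mod_cast hk
    have : ∀ j ∈ range k, negMulLog (e j) ≤ e j * log k + 1 / k := fun j _ => by
      have a := negMulLog_le_one_sub_self (x := e j * k) (mul_nonneg (he j).1 k0.le)
      rw [negMulLog_mul, negMulLog.eq_1 (k : ℝ)] at a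
      rw [← sub_le_iff_le_add', le_div_iff₀ k0]
      nlinarith [mul_nonneg (he j).1 k0.le]
    refine (sum_le_sum this).trans_eq ?_
    rw [sum_add_distrib, sum_mul]; simp [k0.ne']
  rw [pr]
  generalize ∑ j ∈ range k, e j = S at *
  generalize ∑ j ∈ range k, negMulLog (e j) = F at *
  have e0 := exp_pos (-S)
  have e1 : exp (-S) * (S + 1) ≤ 1 := by
    rw [exp_neg, inv_mul_le_iff₀ (exp_pos S), mul_one]; exact add_one_le_exp S
  have e2 : exp (-S) ≤ 1 := by nlinarith
  have e3 : exp (-S) * S ≤ 1 := by nlinarith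
  fin_cases i <;> fin_cases j <;> simp [abs_of_nonneg F0] <;> nlinarith

theorem nb (A : ℕ → Mat) (hA : ∀ j, A j ∈ M '' Set.Icc 0 1) (k : ℕ) : nrm (prod A k) ≤ log k + 1 := by
  have l0 : 0 ≤ log k + 1 := by linarith [log_natCast_nonneg k]
  exact (pi_norm_le_iff_of_nonneg l0).2 fun i => (pi_norm_le_iff_of_nonneg l0).2 (bd A hA k i)

theorem tr {x : ℕ → Fin 2 → ℝ} {A : ℕ → Mat} (h : ∀ k, x (k + 1) = A k *ᵥ x k) (k : ℕ) :
    x k = prod A k *ᵥ x 0 := by
  induction k with
  | zero => simp [prod]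
  | succ k ih => rw [h, prod, ← mulVec_mulVec, ← ih]

noncomputable def L (n : ℕ) : ℝ := log (n + 3)

theorem L1 (n : ℕ) : 1 ≤ L n := by
  rw [L, le_log_iff_exp_le (by positivity)]
  have := exp_one_lt_d9; have : (0 : ℝ) ≤ n := n.cast_nonneg; linarith

theorem L2 (n : ℕ) : L n < L (n + 1) ∧ L (n + 1) - L n ≤ 1 / (n + 3) := by
  refine ⟨log_lt_log (by positivity) (by push_cast; linarith), ?_⟩
  have c := log_le_sub_one_of_pos (x := ((n + 1 : ℕ) + 3 : ℝ) / (n + 3)) (by positivity)
  rwa [log_div (by positivity) (by positivity),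
    show ((n + 1 : ℕ) + 3 : ℝ) / (n + 3) - 1 = 1 / (n + 3) by push_cast; field_simp; ring] at c

noncomputable def ε (n : ℕ) : ℝ := 1 / L n - 1 / L (n + 1)

theorem ε1 (n : ℕ) : 0 < ε n ∧ ε n ≤ 1 / (n + 3) ∧
    (log (L (n + 1)) - log (L n)) / 2 ≤ negMulLog (ε n) := by
  have a := L1 n; have b := L1 (n + 1); obtain ⟨c, d⟩ := L2 n
  have e : ε n = (L (n + 1) - L n) / (L n * L (n + 1)) := by unfold ε; field_simp
  have n0 : (0 : ℝ) ≤ n := n.cast_nonneg
  have p : 0 < ε n := by rw [e]; exact div_pos (by linarith) (by positivity)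
  have q : ε n ≤ 1 / (n + 3) := by
    rw [e]; exact (div_le_self (by linarith) (by nlinarith)).trans d
  refine ⟨p, q, ?_⟩
  have r := log_le_log p q
  rw [one_div, log_inv, ← L] at r
  have s := log_le_sub_one_of_pos (x := L (n + 1) / L n) (by positivity)
  rw [log_div (by positivity) (by positivity)] at s
  have d' : (1 : ℝ) / (n + 3) ≤ 1 := by rw [div_le_one (by positivity)]; linarith
  have t : (L (n + 1) / L n - 1) / 2 ≤ ε n * L n := by
    rw [e, div_sub_one (by positivity), div_mul_eq_mul_div, div_div,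
      div_le_div_iff₀ (by positivity) (by positivity)]
    have : L (n + 1) ≤ L n * 2 := by linarith
    have := mul_le_mul_of_nonneg_left this (mul_pos (sub_pos.2 c) (by positivity : 0 < L n)).le
    nlinarith
  rw [negMulLog]; nlinarith

theorem result : ∃ S : Set Mat, S.Nonempty ∧ IsCompact S ∧
    Tendsto (fun k : ℕ => top S k ^ (1 / k : ℝ)) atTop (𝓝 1) ∧
    (∃ x, Traj S x ∧ ¬BddAbove (Set.range fun k => ‖x k‖)) ∧
    ∀ x, Traj S x → ∀ α : ℝ, 0 < α → (fun k => ‖x k‖) =O[atTop] fun k : ℕ => (k : ℝ) ^ α := by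
  have m0 : M 0 ∈ M '' Set.Icc 0 1 := ⟨0, by simp, rfl⟩
  refine ⟨M '' Set.Icc 0 1, ⟨_, m0⟩, isCompact_Icc.image ?_, ?_, ?_, ?_⟩
  · refine continuous_matrix fun i j => ?_
    fin_cases i <;> fin_cases j <;> simp [M] <;> fun_prop
  · have lo : ∀ k, 1 ≤ top (M '' Set.Icc 0 1) k := fun k => by
      refine le_trans ?_ (le_csSup ⟨log k + 1, by rintro _ ⟨A, hA, rfl⟩; exact nb A hA k⟩
        ⟨fun _ => M 0, fun _ => m0, rfl⟩)
      refine le_trans ?_ ((norm_le_pi_norm (fun j => prod (fun _ => M 0) k 0 j) 0).trans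
        (norm_le_pi_norm (fun i j => prod (fun _ => M 0) k i j : Fin 2 → Fin 2 → ℝ) 0))
      rw [pr fun _ => 0]; simp
    refine tendsto_of_tendsto_of_tendsto_of_le_of_le' tendsto_const_nhds
      (tendsto_rpow_div.comp tendsto_natCast_atTop_atTop)
      (.of_forall fun k => one_le_rpow (lo k) (by positivity)) ?_
    filter_upwards [eventually_gt_atTop 0] with k hk
    refine rpow_le_rpow (by linarith [lo k]) (csSup_le ⟨_, fun _ => M 0, fun _ => m0, rfl⟩ ?_)
      (by positivity)
    rintro _ ⟨A, hA, rfl⟩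
    have := log_le_sub_one_of_pos (x := (k : ℝ)) (by exact_mod_cast hk)
    linarith [nb A hA k]
  · refine ⟨fun k => prod (fun j => M (ε j)) k *ᵥ ![0, 1], ⟨fun j => M (ε j), fun j =>
      ⟨_, ⟨(ε1 j).1.le, (ε1 j).2.1.trans ?_⟩, rfl⟩, fun k => by simp only [prod, mulVec_mulVec]⟩, ?_⟩
    · have : (0 : ℝ) ≤ j := j.cast_nonneg
      rw [div_le_one (by positivity)]; linarith
    rintro ⟨B, hB⟩
    have t : Tendsto (fun k => log (L k)) atTop atTop := tendsto_log_atTop.comp
      (tendsto_log_atTop.comp (tendsto_atTop_add_const_right _ _ tendsto_natCast_atTop_atTop))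
    obtain ⟨k, hk⟩ := (t.eventually (eventually_gt_atTop (log (L 0) + 2 * (B * exp 1)))).exists
    have a := (le_abs_self _).trans ((norm_le_pi_norm _ 0).trans (hB ⟨k, rfl⟩))
    have b := sum_le_sum fun j (_ : j ∈ range k) => (ε1 j).2.2
    rw [← sum_div, sum_range_sub fun j => log (L j)] at b
    have c : ∑ j ∈ range k, ε j ≤ 1 := by
      unfold ε; rw [sum_range_sub' fun j => 1 / L j]
      have := L1 0; have := L1 k
      have : 1 / L 0 ≤ 1 := by rw [div_le_one (by positivity)]; linarith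
      have : 0 < 1 / L k := by positivity
      linarith
    simp only [pr] at a
    simp [mulVec, dotProduct] at a
    rw [exp_neg, inv_mul_le_iff₀ (exp_pos _)] at a
    have B0 : 0 ≤ B := (norm_nonneg _).trans (hB ⟨0, rfl⟩)
    nlinarith [exp_le_exp.2 c]
  · rintro x ⟨A, hA, h⟩ α hα
    have a : (fun k => ‖x k‖) =O[atTop] fun k : ℕ => log k + 1 := by
      refine IsBigO.of_bound (2 * ‖x 0‖) (.of_forall fun k => ?_)
      have l0 : 0 ≤ log k + 1 := by linarith [log_natCast_nonneg k]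
      rw [norm_norm, Real.norm_eq_abs, abs_of_nonneg l0, tr h k]
      refine (pi_norm_le_iff_of_nonneg (by positivity)).2 fun i => ?_
      rw [mulVec, dotProduct, Fin.sum_univ_two]
      have u := mul_le_mul (bd A hA k i 0) (norm_le_pi_norm (x 0) 0) (norm_nonneg _) l0
      have v := mul_le_mul (bd A hA k i 1) (norm_le_pi_norm (x 0) 1) (norm_nonneg _) l0
      refine (norm_add_le _ _).trans ?_
      rw [norm_mul, norm_mul, Real.norm_eq_abs, Real.norm_eq_abs (prod A k i 1)]; linarith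
    refine a.trans (IsBigO.add ?_ ?_)
    · exact ((isLittleO_log_rpow_atTop hα).comp_tendsto tendsto_natCast_atTop_atTop).isBigO
    · refine IsBigO.of_bound 1 ?_
      filter_upwards [eventually_ge_atTop 1] with k hk
      have := one_le_rpow (x := (k : ℝ)) (by exact_mod_cast hk) hα.le
      rw [norm_one, one_mul]; exact this.trans (le_abs_self _)

end Pool.Agent.Results.MP_653f52_an.LogGrowth
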